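import Pool.Agent.Helper68.SK.Goals

/-!
PROJECT SK (MP_2b0227_gt), packet BETA.
-/

set_option autoImplicit false

namespace Pool.Agent.Helper36.SK

open Finset Pool.Agent.Helper52.C2 LaurentPolynomial

theorem geo_nat (n : ℕ) : geo (n : ℤ) = ∑ i ∈ range n, (T (i : ℤ) : ℝ[T;T⁻¹]) := by
  unfold geo
  rw [if_pos (by positivity), Int.toNat_natCast]

theorem beta_aux (n m : ℕ) :
    (geo n * geo m : LaurentPolynomial ℝ) = ∑ j ∈ range (n + m),
      LaurentPolynomial.C (((j : ℝ) + 1) - max 0 ((j : ℝ) + 1 - n) - max 0 ((j : ℝ) + 1 - m)) *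
        LaurentPolynomial.T j := by
  induction m with
  | zero =>
    rw [geo_nat 0, Finset.range_zero, Finset.sum_empty, mul_zero]
    symm
    apply Finset.sum_eq_zero
    intro j hj
    rw [Finset.mem_range] at hj
    have h1 : (j : ℝ) + 1 ≤ n := by exact_mod_cast (by omega : j + 1 ≤ n)
    have h2 : (0 : ℝ) ≤ (j : ℝ) + 1 := by positivity
    rw [max_eq_left (by linarith : (j : ℝ) + 1 - n ≤ 0), Nat.cast_zero, sub_zero,
      max_eq_right h2, sub_self, map_zero, zero_mul]
  | succ m ih =>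
    have e1 : (geo ((m + 1 : ℕ) : ℤ)) = geo m + T (m : ℤ) := by
      rw [geo_nat, geo_nat, Finset.sum_range_succ]
    rw [e1, mul_add, ih, ← add_assoc, Finset.sum_range_succ]
    have e2 : (((n + m : ℕ) : ℝ) + 1) - max 0 (((n + m : ℕ) : ℝ) + 1 - n) -
        max 0 (((n + m : ℕ) : ℝ) + 1 - ((m + 1 : ℕ) : ℝ)) = 0 := by
      push_cast
      have h1 : (0 : ℝ) ≤ (n : ℝ) + m + 1 - n := by
        have : (0 : ℝ) ≤ m := by positivity
        linarith
      have h2 : (0 : ℝ) ≤ (n : ℝ) + m + 1 - (m + 1) := by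
        have : (0 : ℝ) ≤ n := by positivity
        linarith
      rw [max_eq_right h1, max_eq_right h2]
      ring
    rw [e2, map_zero, zero_mul, add_zero]
    have e3 : geo (n : ℤ) * T (m : ℤ) = ∑ j ∈ range (n + m),
        (LaurentPolynomial.C (if m ≤ j then (1 : ℝ) else 0) * T (j : ℤ) : ℝ[T;T⁻¹]) := by
      rw [geo_nat, add_comm n m, Finset.sum_range_add, Finset.sum_mul]
      have h0 : ∑ x ∈ range m, (LaurentPolynomial.C (if m ≤ x then (1 : ℝ) else 0) *
          T (x : ℤ) : ℝ[T;T⁻¹]) = 0 := by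
        apply Finset.sum_eq_zero
        intro x hx
        rw [Finset.mem_range] at hx
        rw [if_neg (by omega), map_zero, zero_mul]
      rw [h0, zero_add]
      apply Finset.sum_congr rfl
      intro x _
      rw [if_pos (by omega), map_one, one_mul, ← T_add]
      congr 1
      push_cast
      ring
    rw [e3, ← Finset.sum_add_distrib]
    apply Finset.sum_congr rfl
    intro j _
    rw [← add_mul, ← map_add]
    congr 2
    push_cast
    by_cases hj : m ≤ j
    · have h1 : (m : ℝ) ≤ j := by exact_mod_cast hj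
      rw [if_pos hj, max_eq_right (by linarith : (0 : ℝ) ≤ (j : ℝ) + 1 - m),
        max_eq_right (by linarith : (0 : ℝ) ≤ (j : ℝ) + 1 - (m + 1))]
      ring
    · have h1 : (j : ℝ) + 1 ≤ m := by exact_mod_cast (by omega : j + 1 ≤ m)
      rw [if_neg hj, max_eq_left (by linarith : (j : ℝ) + 1 - m ≤ 0),
        max_eq_left (by linarith : (j : ℝ) + 1 - (m + 1) ≤ 0)]
      ring

theorem beta : Pool.Agent.Helper68.SK.GoalBeta := beta_aux

end Pool.Agent.Helper36.SK
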